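import Mathlib
import Pool.Agent.Work.MP_571b65_an.Defs
import Pool.Agent.Work.MP_571b65_an_Q2.Main
import Pool.Agent.Work.MP_571b65_an_Q2.ExistsSys

/-!
# A multiply connected wandering domain of infinite inner connectivity without point components

There is a transcendental entire function `f` with a multiply connected wandering domain `U` of
infinite inner connectivity such that no component of `ℂ \ U` is a single point. In every
fundamental disc the preimage of the next disc has, besides the central component, a component
containing a spiral which turns much more often than the degree of the earlier iterates; hence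
every lift of the spiral crosses a fixed strip, and no hole is small.
-/

open Pool.Agent.Work.MP_571b65_an

namespace Pool.Agent.Results.MP_571b65_an.NoSingletons

theorem result : ∃ (f : ℂ → ℂ) (U : Set ℂ) (W : ℕ → Set ℂ),
    Differentiable ℂ f ∧ (¬ ∃ Q : Polynomial ℂ, ∀ z, f z = Q.eval z) ∧
      IsMCWanderingDomain f U W ∧ HasInfiniteInnerConnectivity f U W ∧
        singletonComponents U = ∅ := by
  obtain ⟨f, ρ, R, H, hS⟩ := Pool.Agent.Work.MP_571b65_an_Q2.exists_sys
  obtain ⟨h1, U, W, h2, h3, h4⟩ := hS.main
  refine ⟨f, U, W, hS.diff, ?_, h2, h3, h4⟩
  rintro ⟨Q, hQ⟩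
  obtain ⟨z, hz⟩ := h1 Q
  exact hz (hQ z)

end Pool.Agent.Results.MP_571b65_an.NoSingletons
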