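import Mathlib
import Pool.Agent.Work.MP_571b65_an.Defs
import Pool.Agent.Work.MP_571b65_an.Final

/-!
# A multiply connected wandering domain with uncountably many one-point complementary components

There is a transcendental entire function `f` with a multiply connected wandering domain `U` of
infinite inner connectivity such that uncountably many components of `ℂ \ U` are single points.
The function is `z ^ 16 * ∏ (1 - z^2 / a_k^2)` for an explicit rapidly growing sequence `a_k`.
-/

open Pool.Agent.Work.MP_571b65_an

namespace Pool.Agent.Results.MP_571b65_an.UncountableSingletons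

theorem result : ∃ (f : ℂ → ℂ) (U : Set ℂ) (W : ℕ → Set ℂ),
    Differentiable ℂ f ∧ (¬ ∃ Q : Polynomial ℂ, ∀ z, f z = Q.eval z) ∧
      IsMCWanderingDomain f U W ∧ HasInfiniteInnerConnectivity f U W ∧
        ¬ (singletonComponents U).Countable := by
  obtain ⟨h1, h2, h3⟩ := Pool.Agent.Work.MP_571b65_an.main 0
  refine ⟨Pool.Agent.Work.MP_571b65_an.f, _, _, differentiable_f, ?_, h1, h2, h3⟩
  rintro ⟨Q, hQ⟩
  obtain ⟨z, hz⟩ := f_transcendental Q
  exact hz (hQ z)

end Pool.Agent.Results.MP_571b65_an.UncountableSingletons
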